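import Mathlib

namespace Pool.Agent.Results.MP_6004b5_an.Annulus

open MeasureTheory Set Metric Complex ComplexConjugate Filter Topology

/-- sense-preserving univalent harmonic self-maps of the unit disc. -/
def InH (f : ℂ → ℂ) : Prop :=
  ∃ h g : ℂ → ℂ, DifferentiableOn ℂ h (ball 0 1) ∧ DifferentiableOn ℂ g (ball 0 1) ∧
    (∀ z ∈ ball (0 : ℂ) 1, f z = h z + conj (g z)) ∧
    (∀ z ∈ ball (0 : ℂ) 1, 0 < ‖deriv h z‖ ^ 2 - ‖deriv g z‖ ^ 2) ∧
    InjOn f (ball 0 1) ∧ MapsTo f (ball 0 1) (ball 0 1)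

/-- the conformal automorphisms of the disc. -/
noncomputable def aut (θ : ℝ) (a z : ℂ) : ℂ := exp (θ * I) * ((z - a) / (1 - conj a * z))

lemma den {a z : ℂ} (ha : ‖a‖ < 1) (hz : ‖z‖ < 1) : 1 - conj a * z ≠ 0 := fun h => by
  have : ‖conj a * z‖ = 1 := by rw [← sub_eq_zero.1 h, norm_one]
  rw [norm_mul, norm_conj] at this
  nlinarith [norm_nonneg a, norm_nonneg z]

lemma mob {a z : ℂ} (ha : ‖a‖ < 1) (hz : ‖z‖ < 1) : ‖(z - a) / (1 - conj a * z)‖ < 1 := by
  rw [norm_div, div_lt_one (norm_pos_iff.2 (den ha hz)), ← sq_lt_sq₀ (norm_nonneg _)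
    (norm_nonneg _)]
  have h1 : 0 < (1 - ‖a‖ ^ 2) * (1 - ‖z‖ ^ 2) :=
    mul_pos (by nlinarith [norm_nonneg a]) (by nlinarith [norm_nonneg z])
  simp only [Complex.sq_norm, normSq_apply] at h1 ⊢
  simp
  nlinarith

lemma inv {a z : ℂ} (ha : ‖a‖ < 1) (hz : ‖z‖ < 1) :
    ((z - a) / (1 - conj a * z) - -a) / (1 - conj (-a) * ((z - a) / (1 - conj a * z))) = z := by
  have h1 := den ha hz
  rw [div_eq_iff (den (by simpa) (mob ha hz))]
  simp only [map_neg]
  generalize hq : (z - a) / (1 - conj a * z) = q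
  rw [div_eq_iff h1] at hq
  linear_combination -hq

theorem result : ∃ E : Set ℂ, MeasurableSet E ∧ E ⊆ ball 0 1 ∧ ∀ (θ : ℝ) (a : ℂ), ‖a‖ < 1 →
    ∃ f, InH f ∧ volume (aut θ a '' E) < volume (f '' E) := by
  refine ⟨ball 0 1 \ closedBall 0 (1 / 2), measurableSet_ball.diff measurableSet_closedBall,
    diff_subset, fun θ a ha => ?_⟩
  have he : exp (-(θ * I)) * exp (θ * I) = 1 := by rw [← exp_add]; simp
  obtain ⟨ψ, hψ, hc⟩ : ∃ ψ : ℂ → ℂ, (∀ z, ‖z‖ < 1 → ψ (aut θ a z) = z) ∧
      ContinuousAt ψ (aut θ a 0) := by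
    refine ⟨fun w => (exp (-(θ * I)) * w - -a) / (1 - conj (-a) * (exp (-(θ * I)) * w)),
      fun z hz => ?_, ContinuousAt.div (by fun_prop) (by fun_prop) ?_⟩
    · simp only [aut, ← mul_assoc (exp _), he, one_mul]; exact inv ha hz
    · simp only [aut, ← mul_assoc (exp _), he, one_mul]
      exact den (by simpa) (mob ha (by simp))
  have hD : ∀ z, ‖z‖ < 1 → aut θ a z ∈ ball (0 : ℂ) 1 := fun z hz => by
    rw [mem_ball_zero_iff, aut, norm_mul, norm_exp_ofReal_mul_I, one_mul]; exact mob ha hz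
  obtain ⟨r, hr, hb⟩ : ∃ r > 0, ball (aut θ a 0) r ⊆ ψ ⁻¹' ball 0 (1 / 2) ∩ ball 0 1 := by
    refine Metric.mem_nhds_iff.1 (inter_mem (hc ?_) (isOpen_ball.mem_nhds (hD 0 (by simp))))
    rw [hψ 0 (by simp)]; exact ball_mem_nhds _ (by norm_num)
  obtain ⟨t, ht0, ht1, htr⟩ : ∃ t : ℝ, 0 < t ∧ t < 1 ∧ 3 * (1 - t) < r :=
    ⟨max (1 / 2) (1 - r / 4), lt_max_of_lt_left (by norm_num), max_lt (by norm_num) (by linarith),
      by linarith [le_max_right (1 / 2) (1 - r / 4)]⟩
  have hn : ‖(t : ℂ)‖ < 1 := by rwa [norm_real, Real.norm_eq_abs, abs_of_pos ht0]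
  have hd : ∀ z ∈ ball (0 : ℂ) 1, HasDerivAt (fun z : ℂ => (z - t) / (1 - conj (t : ℂ) * z))
      ((1 - t ^ 2) / (1 - conj (t : ℂ) * z) ^ 2) z := fun z hz => by
    refine (((hasDerivAt_id z).sub_const (t : ℂ)).div (((hasDerivAt_id z).const_mul _).const_sub 1)
      (den hn (by simpa using hz))).congr_deriv ?_
    simp only [id, conj_ofReal]; ring
  refine ⟨fun z => (z - t) / (1 - conj (t : ℂ) * z), ⟨_, 0,
    fun z hz => (hd z hz).differentiableAt.differentiableWithinAt, differentiableOn_const 0,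
    by simp, fun z hz => ?_, fun z hz w hw h => ?_, fun z hz => ?_⟩, ?_⟩
  · rw [(hd z hz).deriv]
    have : (1 - t ^ 2 : ℂ) ≠ 0 := by exact_mod_cast (by nlinarith : 1 - t ^ 2 ≠ 0)
    simpa using pow_pos (norm_pos_iff.2 (div_ne_zero this
      (pow_ne_zero 2 (den hn (by simpa using hz))))) 2
  · rw [← inv hn (mem_ball_zero_iff.1 hz), ← inv hn (mem_ball_zero_iff.1 hw)]
    simp only at h
    rw [h]
  · exact mem_ball_zero_iff.2 (mob hn (mem_ball_zero_iff.1 hz))
  have fin : volume (ball (0 : ℂ) 1) ≠ ⊤ := measure_ball_lt_top.ne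
  calc _ ≤ volume (ball 0 1 \ ball (aut θ a 0) r) := by
        refine measure_mono ?_
        rintro _ ⟨z, hz, rfl⟩
        refine ⟨hD z (by simpa using hz.1), fun h => hz.2 (ball_subset_closedBall ?_)⟩
        have := (hb h).1
        rwa [mem_preimage, hψ z (by simpa using hz.1)] at this
    _ = volume (ball (0 : ℂ) 1) - volume (ball (aut θ a 0) r) :=
        measure_diff (hb.trans inter_subset_right) measurableSet_ball.nullMeasurableSet
          measure_ball_lt_top.ne
    _ < volume (ball (0 : ℂ) 1) - volume (closedBall (-1 : ℂ) (3 * (1 - t))) := by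
        have h1 : volume (closedBall (-1 : ℂ) (3 * (1 - t))) < volume (ball (aut θ a 0) r) := by
          rw [Complex.volume_ball, Complex.volume_closedBall]
          exact ENNReal.mul_lt_mul_left (by simp [NNReal.pi_ne_zero]) (by simp) (ENNReal.pow_lt_pow_left two_ne_zero
            ((ENNReal.ofReal_lt_ofReal_iff hr).2 htr))
        have h2 := measure_mono (μ := volume) (hb.trans inter_subset_right)
        rw [ENNReal.sub_lt_iff_lt_right measure_ball_lt_top.ne h2]
        calc _ = _ := (tsub_add_cancel_of_le (h1.le.trans h2)).symm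
          _ < _ := ENNReal.add_lt_add_left (ne_top_of_le_ne_top fin tsub_le_self) h1
    _ ≤ volume (ball (0 : ℂ) 1 \ closedBall (-1 : ℂ) (3 * (1 - t))) := le_measure_diff
    _ ≤ _ := by
        refine measure_mono fun w hw => ?_
        have hw1 := mem_ball_zero_iff.1 hw.1
        have hn' : ‖-(t : ℂ)‖ < 1 := by simpa using hn
        have e := inv hn' hw1
        rw [neg_neg] at e
        refine ⟨_, ⟨mem_ball_zero_iff.2 (mob hn' hw1), fun h => hw.2 ?_⟩, e⟩
        have hz := mob hn' hw1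
        generalize (w - -(t : ℂ)) / (1 - conj (-(t : ℂ)) * w) = z at e h hz
        rw [mem_closedBall_zero_iff] at h
        have e2 : w - -1 = ((1 - t : ℝ) : ℂ) * (1 + z) / (1 - conj (t : ℂ) * z) := by
          have := den hn hz
          rw [eq_div_iff this]; rw [div_eq_iff this] at e
          simp only [conj_ofReal] at e ⊢; push_cast; linear_combination -e
        have h1 : ‖1 + z‖ ≤ 3 / 2 := (norm_add_le _ _).trans (by rw [norm_one]; linarith)
        have h2 : 1 / 2 ≤ ‖1 - conj (t : ℂ) * z‖ := by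
          have := norm_sub_norm_le 1 (conj (t : ℂ) * z)
          rw [norm_one, norm_mul, norm_conj] at this
          nlinarith [norm_nonneg z, norm_nonneg (t : ℂ)]
        rw [mem_closedBall, dist_eq_norm, e2, norm_div, norm_mul, norm_real, Real.norm_eq_abs,
          abs_of_pos (by linarith), div_le_iff₀ (by linarith)]
        nlinarith

end Pool.Agent.Results.MP_6004b5_an.Annulus
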